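import Pool.Agent.Q86.FAlgRep

set_option autoImplicit false

open Set

namespace Pool.Agent.Results.MP_2f0599_an.FadingSignsW

open Pool.Agent.Q86.FAlg

/-- **Disproof.** There is an F-algebra `A` whose whole dual, hence also `WAP(A)`, has a
topological left invariant mean, while `(F_n^W)` fails for every `n ≥ 1`, for real and for complex
locally convex spaces, even for sets `X` with convex sections `(x + H) ∩ X`. -/
theorem result :
    ∃ (A M : Type) (_ : NonUnitalNormedRing A) (_ : NormedSpace ℂ A) (_ : IsScalarTower ℂ A A)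
      (_ : SMulCommClass ℂ A A) (_ : CompleteSpace A) (_ : CStarAlgebra M)
      (Φ : M ≃ₗᵢ[ℂ] StrongDual ℂ A),
      IsFAlgebra Φ ∧ HasTLIM Φ univ ∧ HasTLIM Φ (WAP A) ∧
      ∀ (𝕜 : Type) [RCLike 𝕜] (n : ℕ), 1 ≤ n → ¬ FW 𝕜 (P1 Φ) n ∧ ¬ FWc 𝕜 (P1 Φ) n := by
  obtain ⟨m, h1, h2, h3⟩ := tlim2
  exact ⟨A2, Pool.Agent.Q86.L1N.M × Pool.Agent.Q86.L1N.M, inferInstance, inferInstance,
    inferInstance, inferInstance, inferInstance, inferInstance, Phi2, isF2, ⟨m, h1, h2, h3⟩,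
    ⟨m, h1, h2, fun f _ a ha => h3 f (mem_univ _) a ha⟩,
    fun 𝕜 _ n hn => ⟨not_FW 𝕜 n hn, not_FWc 𝕜 n hn⟩⟩

end Pool.Agent.Results.MP_2f0599_an.FadingSignsW
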